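import Pool.Agent.SGL.StmtsA

/-!
# Squad SGL, row CLB: the second claim
-/

set_option autoImplicit false

noncomputable section

namespace Pool.Agent.SGL.H5

open Pool.Agent.SGE Pool.Agent.SGP Pool.Agent.SGY Pool.Agent.SGD

theorem clb_core (hNAD : NadStmt) (hFLN : FlnStmt) (hCNT : CntStmt) (hFOK : FokStmt)
    (hCLA : ClaStmt) {V : Type} [Fintype V] {G : V → V → Prop} {R : Set V}
    {E : V → V → Prop} {Φ : V → V → V → Prop} {a p q z u v s t : V}
    (gs : ∀ p q, G p q → G q p) (M : Mnn G R a E Φ) (n : NF E Φ p q z) (ap : a ≠ p)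
    (aq : a ≠ q) (az : a ≠ z) (hG : ¬ G p q) (f1 : Φ p q u) (f2 : Φ q p v)
    (hst : (s = p ∧ t = q) ∨ (s = q ∧ t = p)) (nf : NF E Φ s u z) : ¬ G s u := by
  intro g
  have S := M.1.sph
  obtain ⟨huv, hE, ⟨up, uq, uz⟩, ⟨vp, vq, vz⟩, -⟩ := hNAD S n f1 f2
  obtain ⟨-, c2⟩ := hCLA gs M n ap aq az hG
  obtain ⟨Ezu, au⟩ := c2 u (Or.inl f1)
  obtain ⟨Ezv, av⟩ := c2 v (Or.inr f2)
  have pq : p ≠ q := fun e => by subst e; exact S.irr _ n.1
  have qz : q ≠ z := fun e => by subst e; exact S.irr _ n.2.1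
  have zp : z ≠ p := fun e => by subst e; exact S.irr _ n.2.2.1
  have nst : NF E Φ s t z := by
    rcases hst with ⟨rfl, rfl⟩ | ⟨rfl, rfl⟩
    · exact n
    · exact n.sw S
  have as : a ≠ s := by rcases hst with ⟨rfl, rfl⟩ | ⟨rfl, rfl⟩ <;> assumption
  have at' : a ≠ t := by rcases hst with ⟨rfl, rfl⟩ | ⟨rfl, rfl⟩ <;> assumption
  have ut : u ≠ t := by rcases hst with ⟨rfl, rfl⟩ | ⟨rfl, rfl⟩ <;> assumption
  have vs : v ≠ s := by rcases hst with ⟨rfl, rfl⟩ | ⟨rfl, rfl⟩ <;> assumption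
  by_cases hz : G z s
  · have hgu : ¬ G z u := by
      intro h
      rcases M.1.tri s u z nf g (gs _ _ h) hz with e | e | e
      · exact as e
      · exact au e
      · exact az e
    have O' := hFOK gs M.1 n hG f1 f2
    have cn := (hCNT S n ap aq az f1 f2).1
    have M' : Mnn G R a (flE E p q u v) (flF Φ p q u v) :=
      ⟨O', fun E' Φ' h' => cn.trans (M.2 E' Φ' h')⟩
    obtain ⟨l1, l2⟩ := hFLN S f1 f2 huv hE
    have n1 := l2 z zp qz.symm Ezu Ezv
    have n2 := l1 s u z nf (by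
      rintro ⟨h1, h2⟩
      rcases hst with ⟨rfl, rfl⟩ | ⟨rfl, rfl⟩
      · rcases h2 with e | e | e
        · exact pq e.symm
        · exact uq e.symm
        · exact qz e
      · rcases h1 with e | e | e
        · exact pq e
        · exact up e.symm
        · exact zp e.symm)
    have S' := O'.sph
    have n1' := (n1.rt S').rt S'
    have n2' := (n2.rt S').sw S'
    have := (hCLA gs M' n1' az au av hgu).1 s n2' as
    exact vs this.symm
  · have n1 := (nst.rt S).rt S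
    have n2 := (nf.rt S).rt S
    exact ut ((hCLA gs M n1 az as at' hz).1 u n2 au)

theorem clb (hNAD : NadStmt) (hFLN : FlnStmt) (hCNT : CntStmt) (hFOK : FokStmt)
    (hCLA : ClaStmt) : ClbStmt := by
  intro V _ G R E Φ a x y z gs M n ax ay az hG u hu
  have S := M.1.sph
  rcases hu with f | f
  · obtain ⟨v, f2⟩ := S.ex (S.sym _ _ n.1)
    exact ⟨clb_core hNAD hFLN hCNT hFOK hCLA gs M n ax ay az hG f f2 (Or.inl ⟨rfl, rfl⟩),
      clb_core hNAD hFLN hCNT hFOK hCLA gs M n ax ay az hG f f2 (Or.inr ⟨rfl, rfl⟩)⟩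
  · obtain ⟨v, f2⟩ := S.ex n.1
    have hG' : ¬ G y x := fun h => hG (gs _ _ h)
    exact ⟨clb_core hNAD hFLN hCNT hFOK hCLA gs M (n.sw S) ay ax az hG' f f2
        (Or.inr ⟨rfl, rfl⟩),
      clb_core hNAD hFLN hCNT hFOK hCLA gs M (n.sw S) ay ax az hG' f f2 (Or.inl ⟨rfl, rfl⟩)⟩

end Pool.Agent.SGL.H5
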