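import Pool.Agent.SGL.StmtsU
import Pool.Agent.Helper56_SGP.CTR

/-!
# Squad SGL, row PIN: the outer triangle contains all points
-/

set_option autoImplicit false

noncomputable section

namespace Pool.Agent.SGL.H5

open Pool.Agent.SGE Pool.Agent.SGP Pool.Agent.SGY Pool.Agent.SGD Filter

theorem cu_a {V : Type} (a : V) (s : V → ℕ) (x y : V → ℝ) (B W : ℝ) :
    cu a s x y B W a = (W, 0) := by
  unfold cu; rw [if_pos rfl]

theorem cu_ne {V : Type} {a v : V} (h : v ≠ a) (s : V → ℕ) (x y : V → ℝ) (B W : ℝ) :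
    cu a s x y B W v = (x v, B ^ s v + y v) := by
  unfold cu; rw [if_neg h]

theorem pin (hPSG : PsgStmt) (hPSA : PsaStmt) : PinStmt := by
  intro V _ a b c E F h s x y N hh P
  have hab : a ≠ b := N.ab
  have hnd := N.nd
  have hac : a ≠ c := by
    intro e; subst e; simp at hnd
  have hcb : c ≠ b := by
    intro e; subst e; simp at hnd
  have rc : Rel E c := Pool.Agent.SGP.H56.contour_nb N (by simp)
  have rb : Rel E b := Pool.Agent.SGP.H56.contour_nb N (by simp)
  have sc := P.sc
  have sb := P.sb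
  have H0 : ∀ᶠ B : ℝ in atTop, ∀ᶠ W : ℝ in atTop,
      0 < o (cu a s x y B W a) (cu a s x y B W b) (cu a s x y B W c) := by
    have h1 := hPSA s x y c b (Or.inl (by omega))
    filter_upwards [h1] with B hB
    filter_upwards [hB] with W hW
    rw [cu_a, cu_ne hab.symm, cu_ne hac.symm, ← o_rot]
    exact hW
  have H : ∀ v, v ∈ Inn a b c E → ∀ᶠ B : ℝ in atTop, ∀ᶠ W : ℝ in atTop,
      0 < o (cu a s x y B W a) (cu a s x y B W b) (cu a s x y B W v) ∧
      0 < o (cu a s x y B W b) (cu a s x y B W c) (cu a s x y B W v) ∧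
      0 < o (cu a s x y B W c) (cu a s x y B W a) (cu a s x y B W v) := by
    rintro v ⟨va, vb, vc, rv⟩
    have hv : v ∈ RR a E := ⟨rv, va⟩
    have sl := P.sl v hv
    have h1 := hPSA s x y v b (by
      rcases lt_or_eq_of_le sl with e | e
      · exact Or.inl (by omega)
      · exact Or.inr ⟨by omega, P.by_ v hv vb e⟩)
    have h3 := hPSA s x y c v (by
      rcases Nat.eq_zero_or_pos (s v) with e | e
      · exact Or.inr ⟨by omega, P.cy v hv vc e⟩
      · exact Or.inl (by omega))
    have h2 : ∀ᶠ B : ℝ in atTop,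
        0 < o (x c, B ^ s c + y c) (x v, B ^ s v + y v) (x b, B ^ s b + y b) := by
      rcases lt_or_eq_of_le sl with e | e
      · exact (hPSG s x y).1 c v b (by omega) (by omega) (P.cx v hv vc e)
      · exact (hPSG s x y).2 c v b (by omega) (by omega) (P.bx v hv vb e)
    filter_upwards [h1, h2, h3] with B k1 k2 k3
    filter_upwards [k1, k3] with W l1 l3
    rw [cu_a, cu_ne hab.symm, cu_ne hac.symm, cu_ne va]
    refine ⟨?_, ?_, l3⟩
    · rw [← o_rot]; exact l1
    · rw [o_rot]; exact k2
  have H' : ∀ᶠ B : ℝ in atTop, ∀ v, v ∈ Inn a b c E → ∀ᶠ W : ℝ in atTop,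
      0 < o (cu a s x y B W a) (cu a s x y B W b) (cu a s x y B W v) ∧
      0 < o (cu a s x y B W b) (cu a s x y B W c) (cu a s x y B W v) ∧
      0 < o (cu a s x y B W c) (cu a s x y B W a) (cu a s x y B W v) := by
    rw [eventually_all]
    intro v
    by_cases hv : v ∈ Inn a b c E
    · filter_upwards [H v hv] with B hB _
      exact hB
    · exact Eventually.of_forall fun B hv' => absurd hv' hv
  filter_upwards [H0, H'] with B h0 h'
  have h'' : ∀ᶠ W : ℝ in atTop, ∀ v, v ∈ Inn a b c E →
      0 < o (cu a s x y B W a) (cu a s x y B W b) (cu a s x y B W v) ∧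
      0 < o (cu a s x y B W b) (cu a s x y B W c) (cu a s x y B W v) ∧
      0 < o (cu a s x y B W c) (cu a s x y B W a) (cu a s x y B W v) := by
    rw [eventually_all]
    intro v
    by_cases hv : v ∈ Inn a b c E
    · filter_upwards [h' v hv] with W hW _
      exact hW
    · exact Eventually.of_forall fun W hv' => absurd hv' hv
  filter_upwards [h0, h''] with W k0 k'
  exact ⟨k0, k'⟩

end Pool.Agent.SGL.H5
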